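import Pool.Agent.helper70.NZ.SpecA

/-!
# MP_baa4d7_al, THEOREM NZ, row NTK: transfer of unit classes to the type `N`
-/

set_option autoImplicit false

namespace Pool.Agent.ND.NY.E

open Pool.Agent.helper58.DC Pool.Agent.DI Pool.Agent.GR Pool.Agent.OB Pool.Agent.DR Pool.Agent.FI Pool.Agent.FI3 Pool.Agent.FI4 Pool.Agent.FI4I Pool.Agent.LE Pool.Agent.L5 Pool.Agent.NAB Pool.Agent.NE
open Pool.Agent.ZB (Pm Om KZ EQ BQ lQ MZc BDK)

theorem NTK_pow (p e k : ℕ) (hp : p.Prime) : k ≤ p ^ (e + k) := by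
  have h1 : k < p ^ k := Nat.lt_pow_self hp.one_lt
  have h2 : p ^ k ≤ p ^ (e + k) := Nat.pow_le_pow_right hp.pos (by omega)
  omega

theorem NTK (hNTK : Pool.Agent.NAB.NTK_stmt) (hZTK : Pool.Agent.ZB.ZTK_stmt) (hYKT : YKT_stmt) : NTK_stmt := by
  intro p e m M hM G _ _ N H hHN η hη z x
  have hp : p.Prime := hM.pr
  obtain ⟨hD, -, -⟩ := hZTK p m M hp G N
  have hKY := (hYKT p e m).2 G N
  set k : ℕ := max (pp p (Cz (H.subgroupOf N) (z * x))) (pp p (Cz H ((z : G) * (x : G)))) with hk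
  have hn := hNTK p e k M G N H hHN η hη z x
  have hk1 : pp p (Cz (H.subgroupOf N) (z * x)) ≤ p ^ (e + k) := (le_max_left _ _).trans (NTK_pow p e k hp)
  have hk2 : pp p (Cz H ((z : G) * (x : G))) ≤ p ^ (e + k) := (le_max_right _ _).trans (NTK_pow p e k hp)
  constructor
  · intro h
    have h' := hn.1 ⟨h.pe, h.re, h.co, h.zm, h.xm, h.od, h.ne, hk1⟩
    refine ⟨h'.pe, h'.re, h'.co, h'.zm, h'.xm, h'.od, h'.ne, ?_⟩
    obtain ⟨D', y, hdef, hky⟩ := h.df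
    have hDN : D'.map N.subtype ≤ N := by
      rintro _ ⟨z, hz, rfl⟩
      exact z.2
    have hZ2 : (D'.map N.subtype).subgroupOf N = D' := Subgroup.comap_map_eq_self_of_injective N.subtype_injective D'
    refine ⟨D'.map N.subtype, (y : G), ?_, ?_⟩
    · refine (hD H hHN η hη _ hDN y).1 ?_
      rw [hZ2]
      exact hdef
    · refine (hKY _ hDN).1 ?_
      rw [hZ2]
      exact hky
  · intro h
    have h' := hn.2 ⟨h.pe, h.re, h.co, h.zm, h.xm, h.od, h.ne, hk2⟩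
    refine ⟨h'.pe, h'.re, h'.co, h'.zm, h'.xm, h'.od, h'.ne, ?_⟩
    obtain ⟨D, y, hdef, hky⟩ := h.df
    have hDN : D ≤ N := by
      refine hdef.le.trans ?_
      intro g hg
      exact hHN hg.1
    refine ⟨D.subgroupOf N, ⟨y, hHN hdef.mem⟩, ?_, ?_⟩
    · exact (hD H hHN η hη _ hDN ⟨y, hHN hdef.mem⟩).2 hdef
    · exact (hKY _ hDN).2 hky

end Pool.Agent.ND.NY.E
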